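import Mathlib

set_option maxHeartbeats 4000000
set_option linter.unusedSectionVars false
set_option linter.unusedSimpArgs false

/-!
# MP_821f63_lc: `ASP` and `ASB` are not subadditive in `t`

Over the field with three elements: `ASP(3,5,3) ≤ ASB(3,5,3) ≤ 9` (the affine plane of order 3),
`ASP(3,2,3) ≤ ASB(3,2,3) ≤ 4`, but `ASB(3,7,3) ≥ ASP(3,7,3) ≥ 14`.
-/

namespace Pool.Agent.Results.MP_821f63_lc.AffinePlane

open Finset

section Defs

/-- The `j`-th column of `G`. -/
def colv {F : Type} [Field F] {k n : ℕ} (G : Matrix (Fin k) (Fin n) F) (j : Fin n) : Fin k → F :=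
  fun i => G i j

/-- `G` serves the multiset `v_1, ..., v_t`: there are pairwise disjoint index sets
`R_1, ..., R_t` with `v_a` in the span of the columns of `G` indexed by `R_a`. -/
def Serves {F : Type} [Field F] {k n t : ℕ} (G : Matrix (Fin k) (Fin n) F)
    (v : Fin t → Fin k → F) : Prop :=
  ∃ R : Fin t → Finset (Fin n), (∀ a b, a ≠ b → Disjoint (R a) (R b)) ∧
    ∀ a, v a ∈ Submodule.span F (colv G '' (R a : Set (Fin n)))

/-- `G` is a generator matrix of the code `C` (so `C` has dimension `k`). -/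
def IsGenerator {F : Type} [Field F] {k n : ℕ} (G : Matrix (Fin k) (Fin n) F)
    (C : Submodule F (Fin n → F)) : Prop :=
  LinearIndependent F (fun i => G i) ∧ Submodule.span F (Set.range fun i => G i) = C

/-- The `t`-all-symbol PIR property. -/
def PIRProp {F : Type} [Field F] {k n : ℕ} (t : ℕ) (G : Matrix (Fin k) (Fin n) F) : Prop :=
  ∀ j : Fin n, Serves G (fun _ : Fin t => colv G j)

/-- The `t`-all-symbol batch property. -/
def BatchProp {F : Type} [Field F] {k n : ℕ} (t : ℕ) (G : Matrix (Fin k) (Fin n) F) : Prop :=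
  ∀ s : Fin t → Fin n, Serves G (fun a => colv G (s a))

/-- `ASP(k,t,q)` for the field `F` with `q` elements. -/
noncomputable def ASP (F : Type) [Field F] (k t : ℕ) : ℕ :=
  sInf {n : ℕ | ∃ (C : Submodule F (Fin n → F)) (G : Matrix (Fin k) (Fin n) F),
    IsGenerator G C ∧ PIRProp t G}

/-- `ASB(k,t,q)` for the field `F` with `q` elements. -/
noncomputable def ASB (F : Type) [Field F] (k t : ℕ) : ℕ :=
  sInf {n : ℕ | ∃ (C : Submodule F (Fin n → F)) (G : Matrix (Fin k) (Fin n) F),
    IsGenerator G C ∧ BatchProp t G}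

end Defs

abbrev V := Fin 3 → ZMod 3

def dot (a x : V) : ZMod 3 := a 0 * x 0 + a 1 * x 1 + a 2 * x 2

def cr (u w : V) : V :=
  ![u 1 * w 2 - u 2 * w 1, u 2 * w 0 - u 0 * w 2, u 0 * w 1 - u 1 * w 0]

/-- Representatives of the 13 points of the projective plane of order 3. -/
def pt : Fin 13 → V :=
  ![![0, 0, 1], ![0, 1, 0], ![0, 1, 1], ![0, 1, 2], ![1, 0, 0], ![1, 0, 1], ![1, 0, 2],
    ![1, 1, 0], ![1, 1, 1], ![1, 1, 2], ![1, 2, 0], ![1, 2, 1], ![1, 2, 2]]

/-- The points on the 13 lines (line `l` is the kernel of `dot (pt l)`); by symmetry also the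
lines through the 13 points. -/
def LN : Fin 13 → Fin 4 → Fin 13 :=
  ![![1, 4, 7, 10], ![0, 4, 5, 6], ![3, 4, 9, 11], ![2, 4, 8, 12], ![0, 1, 2, 3], ![1, 6, 9, 12],
    ![1, 5, 8, 11], ![0, 10, 11, 12], ![3, 6, 8, 10], ![2, 5, 9, 10], ![0, 7, 8, 9],
    ![2, 6, 7, 11], ![3, 5, 7, 12]]

lemma dot_add (a x y : V) : dot a (x + y) = dot a x + dot a y := by
  simp only [dot, Pi.add_apply]; ring

lemma dot_smul (a x : V) (c : ZMod 3) : dot a (c • x) = c * dot a x := by
  simp only [dot, Pi.smul_apply, smul_eq_mul]; ring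

lemma dot_zero (a : V) : dot a 0 = 0 := by simp [dot]

lemma dot_neg (a x : V) : dot a (-x) = - dot a x := by
  simp only [dot, Pi.neg_apply]; ring

lemma dot_cr_left (u w : V) : dot (cr u w) u = 0 := by
  simp only [dot, cr, Matrix.cons_val_zero, Matrix.cons_val_one, Matrix.cons_val]; ring

lemma dot_cr_right (u w : V) : dot (cr u w) w = 0 := by
  simp only [dot, cr, Matrix.cons_val_zero, Matrix.cons_val_one, Matrix.cons_val]; ring

lemma dot_span (a : V) (S : Set V) (h : ∀ y ∈ S, dot a y = 0) (x : V)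
    (hx : x ∈ Submodule.span (ZMod 3) S) : dot a x = 0 := by
  induction hx using Submodule.span_induction with
  | mem y hy => exact h y hy
  | zero => exact dot_zero a
  | add y z _ _ hy hz => rw [dot_add, hy, hz, add_zero]
  | smul c y _ hy => rw [dot_smul, hy, mul_zero]

set_option maxRecDepth 100000 in
lemma D1 : ∀ (l : Fin 13) (k k' : Fin 4), k ≠ k' → ∀ w : V, dot (pt l) w ≠ 0 →
    dot (cr (pt (LN l k)) w) (pt (LN l k')) ≠ 0 := by
  decide +kernel

lemma D4 : ∀ l : Fin 13, ∃ w : V, dot (pt l) w ≠ 0 := by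
  decide +kernel

lemma D5 : ∀ x : V, x ≠ 0 → ∃ r : Fin 13, (x = pt r ∨ x = -pt r) ∧
    ∀ r' : Fin 13, (x = pt r' ∨ x = -pt r') → r' = r := by
  decide +kernel

lemma pt_ne_zero : ∀ r : Fin 13, pt r ≠ 0 := by decide +kernel

lemma neg_pt_ne_zero : ∀ r : Fin 13, -pt r ≠ 0 := by decide +kernel

/-- weights -/
def wt (l q : Fin 13) (x : V) : ℕ :=
  if x = 0 ∨ x = pt q ∨ x = -pt q then 0 else if dot (pt l) x = 0 then 2 else 1

lemma wt_zero (l q : Fin 13) : wt l q 0 = 0 := by simp [wt]

lemma wt_neg (l q : Fin 13) (x : V) : wt l q (-x) = wt l q x := by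
  have h1 : (-x = 0 ∨ -x = pt q ∨ -x = -pt q) ↔ (x = 0 ∨ x = pt q ∨ x = -pt q) := by
    constructor
    · rintro (h | h | h)
      · left; simpa using h
      · right; right; rw [← h, neg_neg]
      · right; left; simpa using h
    · rintro (h | h | h)
      · left; simpa using h
      · right; right; rw [h]
      · right; left; rw [h, neg_neg]
  have h2 : dot (pt l) (-x) = 0 ↔ dot (pt l) x = 0 := by rw [dot_neg, neg_eq_zero]
  simp only [wt, h1, h2]

set_option maxRecDepth 100000 in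
lemma D6 : ∀ (l : Fin 13) (k : Fin 4) (r : Fin 13),
    wt l (LN l k) (pt r) + 2 * (if r = LN l k then 1 else 0) =
      1 + ∑ k' : Fin 4, (if r = LN l k' then 1 else 0) := by
  decide +kernel

set_option maxRecDepth 100000 in
lemma D7 : ∀ (Q r : Fin 13), ∑ i : Fin 4, ∑ k : Fin 4, (if r = LN (LN Q i) k then 1 else 0) =
      1 + 3 * (if r = Q then 1 else 0) := by
  decide +kernel

lemma D8 : ∀ (Q : Fin 13) (i : Fin 4), ∃ k : Fin 4, LN (LN Q i) k = Q := by decide +kernel

lemma D9 : ∀ l r : Fin 13, dot (pt l) (pt r) = 0 → ∃ k : Fin 4, r = LN l k := by decide +kernel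

lemma wt_sum (l q : Fin 13) (x : V) :
    wt l q x = ∑ r : Fin 13, if (x = pt r ∨ x = -pt r) then wt l q (pt r) else 0 := by
  by_cases hx : x = 0
  · subst hx
    rw [wt_zero, Finset.sum_eq_zero]
    intro r _
    rw [if_neg]
    rintro (h | h)
    · exact pt_ne_zero r h.symm
    · exact neg_pt_ne_zero r h.symm
  · obtain ⟨r, hr, huniq⟩ := D5 x hx
    rw [Finset.sum_eq_single r]
    · rw [if_pos hr]
      rcases hr with h | h
      · rw [h]
      · rw [h, wt_neg]
    · intro r' _ hne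
      rw [if_neg]
      intro h
      exact hne (huniq r' h)
    · intro h; exact absurd (Finset.mem_univ r) h

/-- The key lemma: every recovery set of a point `p ≠ q` of the line `l` has weight at least 2. -/
lemma wt_recovery {n : ℕ} (g : Fin n → V) (l : Fin 13) (k k' : Fin 4) (hk : k ≠ k') (v : V)
    (hv : v = pt (LN l k') ∨ v = -pt (LN l k')) (R : Finset (Fin n))
    (hR : v ∈ Submodule.span (ZMod 3) (g '' (R : Set (Fin n)))) :
    2 ≤ ∑ i ∈ R, wt l (LN l k) (g i) := by
  by_contra hlt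
  push Not at hlt
  -- functional vanishing on everything
  have key : ∀ w : V, dot (pt l) w ≠ 0 →
      (∀ i ∈ R, g i = 0 ∨ g i = pt (LN l k) ∨ g i = -pt (LN l k) ∨ g i = w) → False := by
    intro w hw hall
    have h1 := D1 l k k' hk w hw
    have h2 : dot (cr (pt (LN l k)) w) v = 0 := by
      apply dot_span _ (g '' (R : Set (Fin n))) _ v hR
      rintro y ⟨i, hi, rfl⟩
      rcases hall i hi with h | h | h | h
      · rw [h, dot_zero]
      · rw [h, dot_cr_left]
      · rw [h, dot_neg, dot_cr_left, neg_zero]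
      · rw [h, dot_cr_right]
    rcases hv with h | h
    · rw [h] at h2; exact h1 h2
    · rw [h, dot_neg, neg_eq_zero] at h2; exact h1 h2
  have hwt0 : ∀ x : V, wt l (LN l k) x = 0 → x = 0 ∨ x = pt (LN l k) ∨ x = -pt (LN l k) := by
    intro x hx
    by_contra hcon
    rw [wt, if_neg hcon] at hx
    split_ifs at hx
  have hwt1 : ∀ x : V, wt l (LN l k) x = 1 → dot (pt l) x ≠ 0 := by
    intro x hx h0
    rw [wt, if_pos h0] at hx
    split_ifs at hx
    omega
  by_cases hex : ∃ i0 ∈ R, wt l (LN l k) (g i0) ≠ 0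
  · obtain ⟨i0, hi0, hne⟩ := hex
    have hsum : wt l (LN l k) (g i0) + ∑ i ∈ R.erase i0, wt l (LN l k) (g i) =
        ∑ i ∈ R, wt l (LN l k) (g i) := Finset.add_sum_erase R (fun i => wt l (LN l k) (g i)) hi0
    have h1 : wt l (LN l k) (g i0) = 1 := by omega
    have hrest : ∑ i ∈ R.erase i0, wt l (LN l k) (g i) = 0 := by omega
    apply key (g i0) (hwt1 _ h1)
    intro i hi
    by_cases hii : i = i0
    · subst hii; right; right; right; rfl
    · have : wt l (LN l k) (g i) = 0 := by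
        have := Finset.sum_eq_zero_iff.mp hrest i (Finset.mem_erase.mpr ⟨hii, hi⟩)
        exact this
      rcases hwt0 _ this with h | h | h
      · left; exact h
      · right; left; exact h
      · right; right; left; exact h
  · push Not at hex
    obtain ⟨w, hw⟩ := D4 l
    apply key w hw
    intro i hi
    rcases hwt0 _ (hex i hi) with h | h | h
    · left; exact h
    · right; left; exact h
    · right; right; left; exact h

lemma sum_disjoint_le {n t : ℕ} (R : Fin t → Finset (Fin n))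
    (hR : ∀ a b, a ≠ b → Disjoint (R a) (R b)) (f : Fin n → ℕ) :
    ∑ a, ∑ i ∈ R a, f i ≤ ∑ i, f i := by
  rw [← Finset.sum_biUnion]
  · exact Finset.sum_le_sum_of_subset (Finset.subset_univ _)
  · intro a _ b _ hab
    exact hR a b hab


/-! ### The combinatorial classification -/

/-- number of points of the mask `s` on the line `l` -/
def cntl (L : Fin 13 → Fin 4 → Fin 13) (s : ℕ) (l : Fin 13) : ℕ :=
  (s.testBit (L l 0)).toNat + (s.testBit (L l 1)).toNat + (s.testBit (L l 2)).toNat +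
    (s.testBit (L l 3)).toNat

def tot (s : ℕ) : ℕ :=
  ((List.finRange 13).map fun p => (s.testBit p.val).toNat).sum

/-- number of lines through `Q` with at least two points of `s` -/
def ell (L : Fin 13 → Fin 4 → Fin 13) (s : ℕ) (Q : Fin 13) : ℕ :=
  (decide (2 ≤ cntl L s (L Q 0))).toNat + (decide (2 ≤ cntl L s (L Q 1))).toNat +
    (decide (2 ≤ cntl L s (L Q 2))).toNat + (decide (2 ≤ cntl L s (L Q 3))).toNat

def capQ (L : Fin 13 → Fin 4 → Fin 13) (s : ℕ) (Q : Fin 13) : ℕ :=
  if s.testBit Q.val then (if ell L s Q = 4 then 1 else 2) else 0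

def check (L : Fin 13 → Fin 4 → Fin 13) (s : ℕ) : Bool :=
  (List.finRange 13).any (fun l => decide (cntl L s l = 2)) ||
  (List.finRange 13).any (fun l => decide (cntl L s l = tot s)) ||
  decide (s = 8191) ||
  ((List.finRange 13).all (fun Q => !(s.testBit Q.val) || decide (3 ≤ ell L s Q)) &&
    (List.finRange 13).any (fun Q => s.testBit Q.val && decide (ell L s Q = 4)) &&
    decide (((List.finRange 13).map fun Q => capQ L s Q).sum ≤ 12))

set_option maxRecDepth 100000 in
lemma check_all : ∀ a : Fin 64, ∀ b : Fin 128, check LN (a.val * 128 + b.val) = true := by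
  decide +kernel

set_option maxRecDepth 100000 in
lemma D10 : ∀ l p : Fin 13, ∑ k : Fin 4, (if p = LN l k then 1 else 0) ≤ 1 := by
  decide +kernel

section Comb
variable (L : Fin 13 → Fin 4 → Fin 13)

lemma swap_sum (m : Fin 13 → ℕ) (P : Fin 4 → Fin 4 → Fin 13) :
    ∑ i : Fin 4, ∑ k : Fin 4, m (P i k) =
      ∑ r : Fin 13, m r * ∑ i : Fin 4, ∑ k : Fin 4, (if r = P i k then 1 else 0) := by
  have h1 : ∀ p : Fin 13, m p = ∑ r : Fin 13, m r * (if r = p then 1 else 0) := by
    intro p; simp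
  calc ∑ i : Fin 4, ∑ k : Fin 4, m (P i k)
      = ∑ i : Fin 4, ∑ k : Fin 4, ∑ r : Fin 13, m r * (if r = P i k then 1 else 0) :=
        Finset.sum_congr rfl fun i _ => Finset.sum_congr rfl fun k _ => h1 _
    _ = ∑ i : Fin 4, ∑ r : Fin 13, ∑ k : Fin 4, m r * (if r = P i k then 1 else 0) :=
        Finset.sum_congr rfl fun i _ => Finset.sum_comm
    _ = ∑ r : Fin 13, ∑ i : Fin 4, ∑ k : Fin 4, m r * (if r = P i k then 1 else 0) :=
        Finset.sum_comm
    _ = _ := by
        refine Finset.sum_congr rfl fun r _ => ?_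
        rw [Finset.mul_sum]
        refine Finset.sum_congr rfl fun i _ => ?_
        rw [Finset.mul_sum]

lemma swap_sum1 (m : Fin 13 → ℕ) (P : Fin 4 → Fin 13) :
    ∑ k : Fin 4, m (P k) =
      ∑ r : Fin 13, m r * ∑ k : Fin 4, (if r = P k then 1 else 0) := by
  have h1 : ∀ p : Fin 13, m p = ∑ r : Fin 13, m r * (if r = p then 1 else 0) := by
    intro p; simp
  calc ∑ k : Fin 4, m (P k)
      = ∑ k : Fin 4, ∑ r : Fin 13, m r * (if r = P k then 1 else 0) :=
        Finset.sum_congr rfl fun k _ => h1 _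
    _ = ∑ r : Fin 13, ∑ k : Fin 4, m r * (if r = P k then 1 else 0) := Finset.sum_comm
    _ = _ := by
        refine Finset.sum_congr rfl fun r _ => ?_
        rw [Finset.mul_sum]

lemma lines_through (hD7 : ∀ (Q r : Fin 13),
      ∑ i : Fin 4, ∑ k : Fin 4, (if r = L (L Q i) k then 1 else 0) = 1 + 3 * (if r = Q then 1 else 0))
    (m : Fin 13 → ℕ) (Q : Fin 13) :
    ∑ i : Fin 4, ∑ k : Fin 4, m (L (L Q i) k) = (∑ r, m r) + 3 * m Q := by
  rw [swap_sum m (fun i k => L (L Q i) k)]
  rw [Finset.sum_congr rfl fun r _ => by rw [hD7 Q r]]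
  simp only [mul_add, mul_one, Finset.sum_add_distrib]
  congr 1
  rw [Finset.sum_eq_single Q]
  · simp [mul_comm]
  · intro r _ hr; simp [hr]
  · simp

lemma line_arith (N x0 x1 x2 x3 : ℕ) (hN : N ≤ 13)
    (h01 : 1 ≤ x1 → 14 + 2 * x0 ≤ N + (x0 + x1 + x2 + x3))
    (h02 : 1 ≤ x2 → 14 + 2 * x0 ≤ N + (x0 + x1 + x2 + x3))
    (h03 : 1 ≤ x3 → 14 + 2 * x0 ≤ N + (x0 + x1 + x2 + x3))
    (h10 : 1 ≤ x0 → 14 + 2 * x1 ≤ N + (x0 + x1 + x2 + x3))
    (h12 : 1 ≤ x2 → 14 + 2 * x1 ≤ N + (x0 + x1 + x2 + x3))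
    (h13 : 1 ≤ x3 → 14 + 2 * x1 ≤ N + (x0 + x1 + x2 + x3))
    (h20 : 1 ≤ x0 → 14 + 2 * x2 ≤ N + (x0 + x1 + x2 + x3))
    (h21 : 1 ≤ x1 → 14 + 2 * x2 ≤ N + (x0 + x1 + x2 + x3))
    (h23 : 1 ≤ x3 → 14 + 2 * x2 ≤ N + (x0 + x1 + x2 + x3))
    (h30 : 1 ≤ x0 → 14 + 2 * x3 ≤ N + (x0 + x1 + x2 + x3))
    (h31 : 1 ≤ x1 → 14 + 2 * x3 ≤ N + (x0 + x1 + x2 + x3))
    (h32 : 1 ≤ x2 → 14 + 2 * x3 ≤ N + (x0 + x1 + x2 + x3))
    (hc : (decide (1 ≤ x0)).toNat + (decide (1 ≤ x1)).toNat + (decide (1 ≤ x2)).toNat +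
      (decide (1 ≤ x3)).toNat = 2) : False := by
  by_cases c0 : 1 ≤ x0 <;> by_cases c1 : 1 ≤ x1 <;> by_cases c2 : 1 ≤ x2 <;>
      by_cases c3 : 1 ≤ x3 <;> simp [c0, c1, c2, c3] at hc <;> omega

end Comb

section Comb2
variable (L : Fin 13 → Fin 4 → Fin 13)

lemma other_pt (m : Fin 13 → ℕ) (s : ℕ) (hb : ∀ p : Fin 13, s.testBit p.val = decide (1 ≤ m p))
    (l : Fin 13) (k : Fin 4) (hc : 2 ≤ cntl L s l) : ∃ k', k ≠ k' ∧ 1 ≤ m (L l k') := by
  by_contra hcon
  push Not at hcon
  simp only [cntl, hb] at hc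
  have h : ∀ k', k ≠ k' → (decide (1 ≤ m (L l k'))).toNat = 0 := by
    intro k' hk'
    have := hcon k' hk'
    have h2 : ¬ (1 ≤ m (L l k')) := by omega
    simp [h2]
  have h' : ∀ k', (decide (1 ≤ m (L l k'))).toNat ≤ 1 := fun k' => Bool.toNat_le _
  have a0 := h' 0
  have a1 := h' 1
  have a2 := h' 2
  have a3 := h' 3
  fin_cases k
  · have b1 := h 1 (by decide)
    have b2 := h 2 (by decide)
    have b3 := h 3 (by decide)
    omega
  · have b1 := h 0 (by decide)
    have b2 := h 2 (by decide)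
    have b3 := h 3 (by decide)
    omega
  · have b1 := h 0 (by decide)
    have b2 := h 1 (by decide)
    have b3 := h 3 (by decide)
    omega
  · have b1 := h 0 (by decide)
    have b2 := h 1 (by decide)
    have b3 := h 2 (by decide)
    omega

/-- arithmetic at a point -/
lemma point_arith (N q a0 a1 a2 a3 : ℕ) (c0 c1 c2 c3 : Prop) [Decidable c0] [Decidable c1]
    [Decidable c2] [Decidable c3] (hN : N ≤ 13) (hq : 1 ≤ q)
    (hsum : a0 + a1 + a2 + a3 = N + 3 * q)
    (hge0 : q ≤ a0) (hge1 : q ≤ a1) (hge2 : q ≤ a2) (hge3 : q ≤ a3)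
    (h0 : c0 → 14 + 2 * q ≤ N + a0) (h1 : c1 → 14 + 2 * q ≤ N + a1)
    (h2 : c2 → 14 + 2 * q ≤ N + a2) (h3 : c3 → 14 + 2 * q ≤ N + a3) :
    ((decide c0).toNat + (decide c1).toNat + (decide c2).toNat + (decide c3).toNat = 4 →
      q = 1 ∧ N = 13) ∧
    (3 ≤ (decide c0).toNat + (decide c1).toNat + (decide c2).toNat + (decide c3).toNat →
      q ≤ 2) := by
  by_cases d0 : c0 <;> by_cases d1 : c1 <;> by_cases d2 : c2 <;> by_cases d3 : c3 <;>
    refine ⟨fun hh => ?_, fun hh => ?_⟩ <;>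
    simp only [d0, d1, d2, d3, decide_true, decide_false, Bool.toNat_true, Bool.toNat_false,
      true_implies, false_implies] at hh h0 h1 h2 h3 <;> omega

lemma classify (hD7 : ∀ (Q r : Fin 13),
      ∑ i : Fin 4, ∑ k : Fin 4, (if r = L (L Q i) k then 1 else 0) = 1 + 3 * (if r = Q then 1 else 0))
    (hD8 : ∀ (Q : Fin 13) (i : Fin 4), ∃ k : Fin 4, L (L Q i) k = Q)
    (hD10 : ∀ l p : Fin 13, ∑ k : Fin 4, (if p = L l k then 1 else 0) ≤ 1)
    (hca : ∀ a : Fin 64, ∀ b : Fin 128, check L (a.val * 128 + b.val) = true)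
    (m : Fin 13 → ℕ) (N : ℕ) (hN : N = ∑ r, m r) (hN13 : N ≤ 13)
    (hstar : ∀ (l : Fin 13) (k k' : Fin 4), k ≠ k' → 1 ≤ m (L l k') →
      14 + 2 * m (L l k) ≤ N + ∑ i : Fin 4, m (L l i))
    (hspan : ∀ l : Fin 13, ∃ r, 1 ≤ m r ∧ ∀ k, r ≠ L l k) : ∀ r, m r = 1 := by
  obtain ⟨s, hb, hlt⟩ : ∃ s : ℕ, (∀ p : Fin 13, s.testBit p.val = decide (1 ≤ m p)) ∧ s < 8192 := by
    refine ⟨Nat.ofBits (fun p : Fin 13 => decide (1 ≤ m p)), ?_, ?_⟩
    · intro p
      rw [Nat.testBit_ofBits_lt _ _ p.isLt]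
    · have := Nat.ofBits_lt_two_pow (fun p : Fin 13 => decide (1 ≤ m p))
      norm_num at this
      exact this
  have hcheck : check L s = true := by
    have := hca ⟨s / 128, by omega⟩ ⟨s % 128, Nat.mod_lt _ (by norm_num)⟩
    simp only at this
    rwa [show s / 128 * 128 + s % 128 = s by omega] at this
  -- the line constraints
  have hline : ∀ l : Fin 13, cntl L s l ≠ 2 := by
    intro l hc
    simp only [cntl, hb] at hc
    simp only [Fin.sum_univ_four] at hstar
    exact line_arith N _ _ _ _ hN13 (hstar l 0 1 (by decide)) (hstar l 0 2 (by decide))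
      (hstar l 0 3 (by decide)) (hstar l 1 0 (by decide)) (hstar l 1 2 (by decide))
      (hstar l 1 3 (by decide)) (hstar l 2 0 (by decide)) (hstar l 2 1 (by decide))
      (hstar l 2 3 (by decide)) (hstar l 3 0 (by decide)) (hstar l 3 1 (by decide))
      (hstar l 3 2 (by decide)) hc
  have htot : tot s = ∑ p : Fin 13, (decide (1 ≤ m p)).toNat := by
    rw [tot, Fin.sum_univ_def]
    simp only [hb]
  have hnotin : ∀ l : Fin 13, cntl L s l ≠ tot s := by
    intro l hc
    obtain ⟨r, hr, hrl⟩ := hspan l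
    have h1 : cntl L s l = ∑ k : Fin 4, (decide (1 ≤ m (L l k))).toNat := by
      simp only [cntl, hb, Fin.sum_univ_four]
    rw [h1, htot, swap_sum1 (fun p => (decide (1 ≤ m p)).toNat) (fun k => L l k)] at hc
    have hlt' : ∑ p : Fin 13, (decide (1 ≤ m p)).toNat * ∑ k : Fin 4, (if p = L l k then 1 else 0) <
        ∑ p : Fin 13, (decide (1 ≤ m p)).toNat := by
      apply Finset.sum_lt_sum
      · intro p _
        calc _ ≤ (decide (1 ≤ m p)).toNat * 1 := Nat.mul_le_mul_left _ (hD10 l p)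
          _ = _ := mul_one _
      · refine ⟨r, Finset.mem_univ r, ?_⟩
        have : ∑ k : Fin 4, (if r = L l k then 1 else 0) = 0 := by
          apply Finset.sum_eq_zero
          intro k _
          rw [if_neg (hrl k)]
        rw [this]
        simp [hr]
    omega
  -- per point facts
  have hpt : ∀ Q : Fin 13, 1 ≤ m Q → (ell L s Q = 4 → m Q = 1 ∧ N = 13) ∧
      (3 ≤ ell L s Q → m Q ≤ 2) := by
    intro Q hQ
    have hsum := lines_through L hD7 m Q
    rw [Fin.sum_univ_four, ← hN] at hsum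
    have hge : ∀ i : Fin 4, m Q ≤ ∑ k : Fin 4, m (L (L Q i) k) := by
      intro i
      obtain ⟨k, hk⟩ := hD8 Q i
      calc m Q = m (L (L Q i) k) := by rw [hk]
        _ ≤ _ := Finset.single_le_sum (f := fun k => m (L (L Q i) k)) (fun _ _ => Nat.zero_le _)
            (Finset.mem_univ k)
    have hcond : ∀ i : Fin 4, 2 ≤ cntl L s (L Q i) →
        14 + 2 * m Q ≤ N + ∑ k : Fin 4, m (L (L Q i) k) := by
      intro i hi
      obtain ⟨k, hk⟩ := hD8 Q i
      obtain ⟨k', hkk', hm'⟩ := other_pt L m s hb (L Q i) k hi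
      have := hstar (L Q i) k k' hkk' hm'
      rwa [hk] at this
    exact point_arith N (m Q) _ _ _ _ _ _ _ _ hN13 hQ hsum (hge 0) (hge 1) (hge 2) (hge 3)
      (hcond 0) (hcond 1) (hcond 2) (hcond 3)
  simp only [check, Bool.or_eq_true, Bool.and_eq_true, List.any_eq_true, List.all_eq_true,
    decide_eq_true_eq, List.mem_finRange, true_and, forall_const, Bool.not_eq_true'] at hcheck
  rcases hcheck with ((⟨l, hl⟩ | ⟨l, hl⟩) | h) | ⟨⟨h1, ⟨Q0, hQ0, hQ04⟩⟩, h3⟩
  · exact absurd hl (hline l)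
  · exact absurd hl (hnotin l)
  · -- full
    have hall : ∀ r : Fin 13, 1 ≤ m r := by
      intro r
      have h1 := hb r
      rw [h] at h1
      have h2 : ∀ p : Fin 13, (8191 : ℕ).testBit p.val = true := by decide
      rw [h2] at h1
      simpa using h1.symm
    intro r
    by_contra hne
    have h2 : 2 ≤ m r := by have := hall r; omega
    have : ∑ p : Fin 13, 1 < ∑ p : Fin 13, m p :=
      Finset.sum_lt_sum (fun p _ => hall p) ⟨r, Finset.mem_univ r, h2⟩
    simp at this
    omega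
  · exfalso
    have hcap : ∀ Q : Fin 13, m Q ≤ capQ L s Q := by
      intro Q
      by_cases hQ : 1 ≤ m Q
      · have hbit : s.testBit Q.val = true := by rw [hb]; simpa using hQ
        have h3' : 3 ≤ ell L s Q := by
          rcases h1 Q with h | h
          · rw [hbit] at h; exact absurd h (by simp)
          · exact h
        rw [capQ, if_pos hbit]
        split_ifs with h4
        · exact le_of_eq ((hpt Q hQ).1 h4).1
        · exact (hpt Q hQ).2 h3'
      · omega
    have hsumcap : ∑ Q : Fin 13, m Q ≤ 12 := by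
      calc ∑ Q : Fin 13, m Q ≤ ∑ Q : Fin 13, capQ L s Q := Finset.sum_le_sum fun Q _ => hcap Q
        _ = ((List.finRange 13).map fun Q => capQ L s Q).sum := Fin.sum_univ_def _
        _ ≤ 12 := h3
    have hm0 : 1 ≤ m Q0 := by
      rw [hb] at hQ0
      simpa using hQ0
    have := ((hpt Q0 hm0).1 hQ04).2
    omega

end Comb2

section Lower

lemma pt_disj : ∀ x : V, ∑ r : Fin 13, (if (x = pt r ∨ x = -pt r) then 1 else 0) ≤ 1 := by
  decide +kernel

lemma D9' : ∀ (l : Fin 13) (k : Fin 4), dot (pt l) (pt (LN l k)) = 0 := by decide +kernel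

lemma D11 : ∀ k k' : Fin 4, LN 0 k = LN 0 k' → k = k' := by decide +kernel

def mult {n : ℕ} (g : Fin n → V) (r : Fin 13) : ℕ :=
  (Finset.univ.filter fun j => g j = pt r ∨ g j = -pt r).card

lemma sum_wt {n : ℕ} (g : Fin n → V) (l q : Fin 13) :
    ∑ j, wt l q (g j) = ∑ r, mult g r * wt l q (pt r) := by
  rw [Finset.sum_congr rfl fun j _ => wt_sum l q (g j)]
  rw [Finset.sum_comm]
  refine Finset.sum_congr rfl fun r _ => ?_
  rw [← Finset.sum_filter, Finset.sum_const, smul_eq_mul, mult]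

lemma mult_sum_le {n : ℕ} (g : Fin n → V) : ∑ r, mult g r ≤ n := by
  have h : ∀ r, mult g r = ∑ j : Fin n, (if (g j = pt r ∨ g j = -pt r) then 1 else 0) := by
    intro r
    rw [mult, Finset.card_filter]
  rw [Finset.sum_congr rfl fun r _ => h r, Finset.sum_comm]
  calc _ ≤ ∑ j : Fin n, 1 := Finset.sum_le_sum fun j _ => pt_disj (g j)
    _ = n := by simp

lemma sum_wt_pt (m : Fin 13 → ℕ) (l : Fin 13) (k : Fin 4) :
    (∑ r, m r * wt l (LN l k) (pt r)) + 2 * m (LN l k) = (∑ r, m r) + ∑ k', m (LN l k') := by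
  rw [swap_sum1 m (fun k' => LN l k')]
  have h1 : 2 * m (LN l k) = ∑ r, m r * (2 * (if r = LN l k then 1 else 0)) := by
    rw [Finset.sum_eq_single (LN l k)]
    · simp [mul_comm]
    · intro r _ hr; simp [hr]
    · simp
  rw [h1, ← Finset.sum_add_distrib, ← Finset.sum_add_distrib]
  refine Finset.sum_congr rfl fun r _ => ?_
  rw [← mul_add, D6 l k r]
  ring

lemma card_inter_le {n t : ℕ} (R : Fin t → Finset (Fin n))
    (hR : ∀ a b, a ≠ b → Disjoint (R a) (R b)) (X : Finset (Fin n)) :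
    ∑ a, (R a ∩ X).card ≤ X.card := by
  rw [← Finset.card_biUnion]
  · apply Finset.card_le_card
    intro i hi
    simp only [Finset.mem_biUnion, Finset.mem_univ, true_and, Finset.mem_inter] at hi
    obtain ⟨a, _, h⟩ := hi
    exact h
  · intro a _ b _ hab
    exact (hR a b hab).mono Finset.inter_subset_left Finset.inter_subset_left

theorem no_code {n : ℕ} (hn : n ≤ 13) (g : Fin n → V)
    (hind : ∀ l : Fin 13, ∃ j, dot (pt l) (g j) ≠ 0)
    (hpir : ∀ j : Fin n, ∃ R : Fin 7 → Finset (Fin n), (∀ a b, a ≠ b → Disjoint (R a) (R b)) ∧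
      ∀ a, g j ∈ Submodule.span (ZMod 3) (g '' (R a : Set (Fin n)))) : False := by
  have hmem : ∀ r, 1 ≤ mult g r → ∃ j, g j = pt r ∨ g j = -pt r := by
    intro r hr
    rw [mult, Nat.one_le_iff_ne_zero, Finset.card_ne_zero] at hr
    obtain ⟨j, hj⟩ := hr
    exact ⟨j, (Finset.mem_filter.mp hj).2⟩
  have hN13 : ∑ r, mult g r ≤ 13 := (mult_sum_le g).trans hn
  have hall := classify LN D7 D8 D10 check_all (mult g) (∑ r, mult g r) rfl hN13
    (by
      intro l k k' hkk' hk'
      obtain ⟨j, hj⟩ := hmem _ hk'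
      obtain ⟨R, hR, hspan⟩ := hpir j
      have h1 : ∀ a, 2 ≤ ∑ i ∈ R a, wt l (LN l k) (g i) := fun a =>
        wt_recovery g l k k' hkk' (g j) hj (R a) (hspan a)
      have h2 : ∑ a : Fin 7, 2 ≤ ∑ a : Fin 7, ∑ i ∈ R a, wt l (LN l k) (g i) :=
        Finset.sum_le_sum fun a _ => h1 a
      have h3 := sum_disjoint_le R hR (fun i => wt l (LN l k) (g i))
      have h4 := sum_wt g l (LN l k)
      have h5 := sum_wt_pt (mult g) l k
      simp only [Finset.sum_const, Finset.card_univ, Fintype.card_fin, smul_eq_mul] at h2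
      omega)
    (by
      intro l
      by_contra hcon
      push Not at hcon
      obtain ⟨j, hj⟩ := hind l
      have hne : g j ≠ 0 := by
        intro h; rw [h, dot_zero] at hj; exact hj rfl
      obtain ⟨r, hr, -⟩ := D5 (g j) hne
      have hr1 : 1 ≤ mult g r := by
        rw [mult, Nat.one_le_iff_ne_zero, Finset.card_ne_zero]
        exact ⟨j, Finset.mem_filter.mpr ⟨Finset.mem_univ _, hr⟩⟩
      obtain ⟨k, hk⟩ := hcon r hr1
      have h0 : dot (pt l) (pt r) = 0 := by rw [hk]; exact D9' l k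
      rcases hr with h | h
      · rw [h] at hj; exact hj h0
      · rw [h, dot_neg, h0, neg_zero] at hj; exact hj rfl)
  -- final case
  have huniq : ∀ r, ∃ c, (g c = pt r ∨ g c = -pt r) ∧ ∀ j, (g j = pt r ∨ g j = -pt r) → j = c := by
    intro r
    have h1 := hall r
    rw [mult, Finset.card_eq_one] at h1
    obtain ⟨c, hc⟩ := h1
    have hc' : c ∈ (Finset.univ.filter fun j => g j = pt r ∨ g j = -pt r) := by
      rw [hc]; exact Finset.mem_singleton_self c
    refine ⟨c, (Finset.mem_filter.mp hc').2, ?_⟩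
    intro j hj
    have : j ∈ (Finset.univ.filter fun j => g j = pt r ∨ g j = -pt r) :=
      Finset.mem_filter.mpr ⟨Finset.mem_univ _, hj⟩
    rw [hc] at this
    exact Finset.mem_singleton.mp this
  choose c hc hcu using fun k : Fin 4 => huniq (LN 0 k)
  have hdot : ∀ k, dot (pt 0) (g (c k)) = 0 := by
    intro k
    rcases hc k with h | h
    · rw [h]; exact D9' 0 k
    · rw [h, dot_neg, D9' 0 k, neg_zero]
  have hcinj : ∀ k k', c k = c k' → k = k' := by
    intro k k' h
    apply D11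
    have h1 := hc k
    have h2 := hc k'
    rw [h] at h1
    have hne : g (c k') ≠ 0 := by
      intro h0
      rcases h2 with h | h
      · exact pt_ne_zero _ (h.symm.trans h0)
      · exact neg_pt_ne_zero _ (h.symm.trans h0)
    obtain ⟨r, -, hr⟩ := D5 (g (c k')) hne
    rw [hr _ h1, hr _ h2]
  set Off : Finset (Fin n) := Finset.univ.filter fun j => dot (pt 0) (g j) ≠ 0 with hOff
  have hOffcard : Off.card ≤ 9 := by
    have hdisj : Disjoint Off (Finset.univ.image c) := by
      rw [Finset.disjoint_left]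
      intro j hj hj'
      obtain ⟨k, -, rfl⟩ := Finset.mem_image.mp hj'
      exact (Finset.mem_filter.mp hj).2 (hdot k)
    have h1 : (Finset.univ.image c).card = 4 := by
      rw [Finset.card_image_of_injective _ (fun k k' h => hcinj k k' h)]
      simp
    have h2 : Off.card + (Finset.univ.image c).card ≤ n := by
      rw [← Finset.card_union_of_disjoint hdisj]
      exact (Finset.card_le_univ _).trans (by simp)
    omega
  obtain ⟨R, hR, hspan⟩ := hpir (c 0)
  set E : Finset (Fin n) := {c 1, c 2, c 3} with hE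
  have hEcard : E.card ≤ 3 := Finset.card_le_three
  have hmain : ∀ a, 2 ≤ 2 * (R a ∩ {c 0}).card + 2 * (if 2 ≤ (R a ∩ E).card then 1 else 0) +
      (R a ∩ Off).card := by
    intro a
    by_cases h0 : c 0 ∈ R a
    · have : 1 ≤ (R a ∩ {c 0}).card := by
        rw [Nat.one_le_iff_ne_zero, Finset.card_ne_zero]
        exact ⟨c 0, by simp [h0]⟩
      omega
    by_cases h1 : 2 ≤ (R a ∩ E).card
    · rw [if_pos h1]; omega
    have hpair : ∀ k k' : Fin 4, k ≠ 0 → k' ≠ 0 → c k ∈ R a → c k' ∈ R a → k = k' := by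
      intro k k' hk hk' hm hm'
      by_contra hne
      apply h1
      have hsub : ({c k, c k'} : Finset (Fin n)) ⊆ R a ∩ E := by
        intro x hx
        have hmE : ∀ k : Fin 4, k ≠ 0 → c k ∈ E := by
          intro k hk
          rw [hE]
          fin_cases k <;> simp at hk ⊢
        rcases Finset.mem_insert.mp hx with h | h
        · rw [h]; exact Finset.mem_inter.mpr ⟨hm, hmE k hk⟩
        · rw [Finset.mem_singleton.mp h]; exact Finset.mem_inter.mpr ⟨hm', hmE k' hk'⟩
      have hcard : ({c k, c k'} : Finset (Fin n)).card = 2 :=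
        Finset.card_pair (fun h => hne (hcinj k k' h))
      calc 2 = _ := hcard.symm
        _ ≤ _ := Finset.card_le_card hsub
    -- choose k
    obtain ⟨k, hk0, hk⟩ : ∃ k : Fin 4, k ≠ 0 ∧ ∀ k', k' ≠ 0 → c k' ∈ R a → k' = k := by
      by_cases hex : ∃ k : Fin 4, k ≠ 0 ∧ c k ∈ R a
      · obtain ⟨k, hk0, hk⟩ := hex
        exact ⟨k, hk0, fun k' hk' hm => hpair k' k hk' hk0 hm hk⟩
      · push Not at hex
        exact ⟨1, by decide, fun k' hk' hm => absurd hm (hex k' hk')⟩
    have hw := wt_recovery g 0 k 0 hk0 (g (c 0)) (hc 0) (R a) (hspan a)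
    have hle : ∑ i ∈ R a, wt 0 (LN 0 k) (g i) ≤ (R a ∩ Off).card := by
      have : (R a ∩ Off).card = ∑ i ∈ R a, (if dot (pt 0) (g i) ≠ 0 then 1 else 0) := by
        rw [hOff, ← Finset.card_filter]
        congr 1
        ext i
        simp
      rw [this]
      refine Finset.sum_le_sum fun i hi => ?_
      by_cases hd : dot (pt 0) (g i) = 0
      · have hz : wt 0 (LN 0 k) (g i) = 0 := by
          rw [wt, if_pos]
          by_cases hg : g i = 0
          · left; exact hg
          · right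
            obtain ⟨r, hr, -⟩ := D5 (g i) hg
            have h0r : dot (pt 0) (pt r) = 0 := by
              rcases hr with h | h
              · rw [h] at hd; exact hd
              · rw [h, dot_neg, neg_eq_zero] at hd; exact hd
            obtain ⟨k'', hk''⟩ := D9 0 r h0r
            have hi' : i = c k'' := hcu k'' i (by rw [← hk'']; exact hr)
            have hk''0 : k'' ≠ 0 := by
              intro h; rw [h] at hi'; rw [hi'] at hi; exact h0 hi
            have : k'' = k := hk k'' hk''0 (by rw [← hi']; exact hi)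
            rw [← this, ← hk'']; exact hr
        rw [hz]; exact Nat.zero_le _
      · rw [if_pos hd, wt]
        split_ifs <;> omega
    omega
  have hsum := Finset.sum_le_sum (s := Finset.univ) fun a (_ : a ∈ Finset.univ) => hmain a
  simp only [Finset.sum_const, Finset.card_univ, Fintype.card_fin, smul_eq_mul,
    Finset.sum_add_distrib, ← Finset.mul_sum] at hsum
  have s1 := card_inter_le R hR {c 0}
  have s2 := card_inter_le R hR E
  have s3 := card_inter_le R hR Off
  have s4 : 2 * ∑ a, (if 2 ≤ (R a ∩ E).card then 1 else 0) ≤ ∑ a, (R a ∩ E).card := by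
    rw [Finset.mul_sum]
    refine Finset.sum_le_sum fun a _ => ?_
    split_ifs with h <;> omega
  rw [Finset.card_singleton] at s1
  omega

end Lower

section Upper

def gmat9 : Matrix (Fin 3) (Fin 9) (ZMod 3) :=
  fun i j => (![1, ((j.val / 3 : ℕ) : ZMod 3), ((j.val % 3 : ℕ) : ZMod 3)] : V) i

/-- third point of the affine line through `P` and `A` (or `P` itself when `A = P`) -/
def third (P A : Fin 9) : Fin 9 :=
  ⟨((6 - P.val / 3 - A.val / 3) % 3) * 3 + ((6 - P.val % 3 - A.val % 3) % 3), by omega⟩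

lemma third_spec : ∀ (P A : Fin 9) (i : Fin 3),
    gmat9 i P = - gmat9 i A - gmat9 i (third P A) := by
  decide +kernel

lemma mem_span9 (P A : Fin 9) (R : Finset (Fin 9)) (h1 : A ∈ R) (h2 : third P A ∈ R) :
    colv gmat9 P ∈ Submodule.span (ZMod 3) (colv gmat9 '' (R : Set (Fin 9))) := by
  have h : colv gmat9 P = - colv gmat9 A - colv gmat9 (third P A) := by
    funext i
    exact third_spec P A i
  rw [h]
  exact Submodule.sub_mem _ (Submodule.neg_mem _ (Submodule.subset_span ⟨A, h1, rfl⟩))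
    (Submodule.subset_span ⟨_, h2, rfl⟩)

def ok (P A : Fin 9) (u : Fin 9 × Fin 9) : Bool :=
  decide (A ≠ u.1) && decide (A ≠ u.2) && decide (third P A ≠ u.1) && decide (third P A ≠ u.2)

def srch : List (Fin 9) → List (Fin 9 × Fin 9) → Bool
  | [], _ => true
  | P :: Ps, used => (List.finRange 9).any fun A =>
      used.all (ok P A) && srch Ps ((A, third P A) :: used)

set_option maxRecDepth 100000 in
lemma srch_all : ∀ a b : Fin 9, a ≤ b → ∀ c : Fin 9, b ≤ c → ∀ d : Fin 9, c ≤ d →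
    ∀ e : Fin 9, d ≤ e → srch [a, b, c, d, e] [] = true := by
  decide +kernel

lemma srch_cons (P : Fin 9) (Ps : List (Fin 9)) (used : List (Fin 9 × Fin 9))
    (h : srch (P :: Ps) used = true) : ∃ A, used.all (ok P A) = true ∧
      srch Ps ((A, third P A) :: used) = true := by
  rw [srch, List.any_eq_true] at h
  obtain ⟨A, _, hA⟩ := h
  rw [Bool.and_eq_true] at hA
  exact ⟨A, hA.1, hA.2⟩

lemma ok_disj (P A B T : Fin 9) (h : ok P A (B, T) = true) :
    Disjoint ({B, T} : Finset (Fin 9)) {A, third P A} := by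
  simp only [ok, Bool.and_eq_true, decide_eq_true_eq] at h
  obtain ⟨⟨⟨h1, h2⟩, h3⟩, h4⟩ := h
  rw [Finset.disjoint_left]
  intro x hx hx'
  simp only [Finset.mem_insert, Finset.mem_singleton] at hx hx'
  rcases hx with rfl | rfl <;> rcases hx' with h | h
  · exact h1 h.symm
  · exact h3 h.symm
  · exact h2 h.symm
  · exact h4 h.symm

lemma serves_sorted (s : Fin 5 → Fin 9) (hs : Monotone s) :
    Serves gmat9 (fun a => colv gmat9 (s a)) := by
  have h := srch_all (s 0) (s 1) (hs (by decide)) (s 2) (hs (by decide)) (s 3) (hs (by decide))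
    (s 4) (hs (by decide))
  obtain ⟨A0, -, h⟩ := srch_cons _ _ _ h
  obtain ⟨A1, o1, h⟩ := srch_cons _ _ _ h
  obtain ⟨A2, o2, h⟩ := srch_cons _ _ _ h
  obtain ⟨A3, o3, h⟩ := srch_cons _ _ _ h
  obtain ⟨A4, o4, -⟩ := srch_cons _ _ _ h
  simp only [List.all_cons, List.all_nil, Bool.and_true, Bool.and_eq_true] at o1 o2 o3 o4
  have d01 := ok_disj _ _ _ _ o1
  have d12 := ok_disj _ _ _ _ o2.1
  have d02 := ok_disj _ _ _ _ o2.2
  have d23 := ok_disj _ _ _ _ o3.1
  have d13 := ok_disj _ _ _ _ o3.2.1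
  have d03 := ok_disj _ _ _ _ o3.2.2
  have d34 := ok_disj _ _ _ _ o4.1
  have d24 := ok_disj _ _ _ _ o4.2.1
  have d14 := ok_disj _ _ _ _ o4.2.2.1
  have d04 := ok_disj _ _ _ _ o4.2.2.2
  refine ⟨![{A0, third (s 0) A0}, {A1, third (s 1) A1}, {A2, third (s 2) A2},
    {A3, third (s 3) A3}, {A4, third (s 4) A4}], ?_, ?_⟩
  · intro a b hab
    fin_cases a <;> fin_cases b <;>
      first
        | exact absurd rfl hab
        | exact d01
        | exact d02
        | exact d03
        | exact d04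
        | exact d12
        | exact d13
        | exact d14
        | exact d23
        | exact d24
        | exact d34
        | exact d01.symm
        | exact d02.symm
        | exact d03.symm
        | exact d04.symm
        | exact d12.symm
        | exact d13.symm
        | exact d14.symm
        | exact d23.symm
        | exact d24.symm
        | exact d34.symm
  · intro a
    fin_cases a
    · exact mem_span9 (s 0) A0 _ (by simp) (by simp)
    · exact mem_span9 (s 1) A1 _ (by simp) (by simp)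
    · exact mem_span9 (s 2) A2 _ (by simp) (by simp)
    · exact mem_span9 (s 3) A3 _ (by simp) (by simp)
    · exact mem_span9 (s 4) A4 _ (by simp) (by simp)

lemma batch9 : BatchProp 5 gmat9 := by
  intro s
  obtain ⟨R, hR, hm⟩ := serves_sorted (s ∘ Tuple.sort s) (Tuple.monotone_sort s)
  refine ⟨fun a => R ((Tuple.sort s).symm a), ?_, ?_⟩
  · intro a b hab
    exact hR _ _ (fun h => hab ((Tuple.sort s).symm.injective h))
  · intro a
    have := hm ((Tuple.sort s).symm a)
    simpa using this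

lemma gen9 : LinearIndependent (ZMod 3) (fun i => gmat9 i) := by
  rw [Fintype.linearIndependent_iff]
  intro f hf
  have h0 := congrFun hf 0
  have h1 := congrFun hf 1
  have h3 := congrFun hf 3
  simp only [Fin.sum_univ_three, Pi.add_apply, Pi.smul_apply, smul_eq_mul, Pi.zero_apply] at h0 h1 h3
  have e0 : gmat9 0 0 = 1 := by decide
  have e1 : gmat9 1 0 = 0 := by decide
  have e2 : gmat9 2 0 = 0 := by decide
  have e3 : gmat9 0 1 = 1 := by decide
  have e4 : gmat9 1 1 = 0 := by decide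
  have e5 : gmat9 2 1 = 1 := by decide
  have e6 : gmat9 0 3 = 1 := by decide
  have e7 : gmat9 1 3 = 1 := by decide
  have e8 : gmat9 2 3 = 0 := by decide
  rw [e0, e1, e2] at h0
  rw [e3, e4, e5] at h1
  rw [e6, e7, e8] at h3
  simp only [mul_one, mul_zero, add_zero] at h0 h1 h3
  rw [h0] at h1 h3
  simp only [zero_add] at h1 h3
  intro i
  fin_cases i
  · exact h0
  · exact h3
  · exact h1

def gmat4 : Matrix (Fin 3) (Fin 4) (ZMod 3) :=
  ![![1, 0, 0, 1], ![0, 1, 0, 1], ![0, 0, 1, 1]]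

lemma rel4 : ∀ (P : Fin 4), ∃ c : Fin 4 → ZMod 3, c P = 0 ∧
    ∀ i : Fin 3, gmat4 i P = c 0 * gmat4 i 0 + c 1 * gmat4 i 1 + c 2 * gmat4 i 2 +
      c 3 * gmat4 i 3 := by
  decide +kernel

lemma batch4 : BatchProp 2 gmat4 := by
  intro s
  by_cases h : s 0 = s 1
  · refine ⟨![{s 0}, Finset.univ.erase (s 0)], ?_, ?_⟩
    · intro a b hab
      have hd : Disjoint ({s 0} : Finset (Fin 4)) (Finset.univ.erase (s 0)) := by
        rw [Finset.disjoint_left]
        intro x hx hx'
        rw [Finset.mem_singleton] at hx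
        exact (Finset.mem_erase.mp hx').1 hx
      fin_cases a <;> fin_cases b
      · exact absurd rfl hab
      · exact hd
      · exact hd.symm
      · exact absurd rfl hab
    · intro a
      fin_cases a
      · exact Submodule.subset_span ⟨s 0, by simp, rfl⟩
      · change colv gmat4 (s 1) ∈ _
        rw [← h]
        obtain ⟨c, hc0, hc⟩ := rel4 (s 0)
        have hsum : colv gmat4 (s 0) = ∑ j : Fin 4, c j • colv gmat4 j := by
          funext i
          rw [Fin.sum_univ_four]
          exact hc i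
        rw [hsum]
        refine Submodule.sum_mem _ fun j _ => ?_
        by_cases hj : j = s 0
        · rw [hj, hc0, zero_smul]
          exact Submodule.zero_mem _
        · apply Submodule.smul_mem
          exact Submodule.subset_span ⟨j, by simp [hj], rfl⟩
  · refine ⟨fun a => {s a}, ?_, ?_⟩
    · intro a b hab
      rw [Finset.disjoint_singleton]
      fin_cases a <;> fin_cases b
      · exact absurd rfl hab
      · exact h
      · exact fun h' => h h'.symm
      · exact absurd rfl hab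
    · intro a
      exact Submodule.subset_span ⟨s a, by simp, rfl⟩

lemma gen4 : LinearIndependent (ZMod 3) (fun i => gmat4 i) := by
  rw [Fintype.linearIndependent_iff]
  intro f hf
  have h0 := congrFun hf 0
  have h1 := congrFun hf 1
  have h2 := congrFun hf 2
  simp [Fin.sum_univ_three, gmat4] at h0 h1 h2
  intro i
  fin_cases i
  · exact h0
  · exact h1
  · exact h2

def gmat21 : Matrix (Fin 3) (Fin 21) (ZMod 3) :=
  fun i j => if j.val % 3 = i.val then 1 else 0

lemma batch21 : BatchProp 7 gmat21 := by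
  intro s
  refine ⟨fun a => {⟨3 * a.val + (s a).val % 3, by omega⟩}, ?_, ?_⟩
  · intro a b hab
    rw [Finset.disjoint_singleton]
    intro h
    have := congrArg Fin.val h
    simp only at this
    apply hab
    apply Fin.ext
    omega
  · intro a
    apply Submodule.subset_span
    refine ⟨⟨3 * a.val + (s a).val % 3, by omega⟩, by simp, ?_⟩
    funext i
    have : (3 * a.val + (s a).val % 3) % 3 = (s a).val % 3 := by omega
    simp only [colv, gmat21, this]

lemma gen21 : LinearIndependent (ZMod 3) (fun i => gmat21 i) := by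
  rw [Fintype.linearIndependent_iff]
  intro f hf
  have h0 := congrFun hf 0
  have h1 := congrFun hf 1
  have h2 := congrFun hf 2
  simp [Fin.sum_univ_three, gmat21] at h0 h1 h2
  intro i
  fin_cases i
  · exact h0
  · exact h1
  · exact h2

end Upper

section Final

lemma lower {n : ℕ} (C : Submodule (ZMod 3) (Fin n → ZMod 3))
    (G : Matrix (Fin 3) (Fin n) (ZMod 3)) (hG : IsGenerator G C) (hp : PIRProp 7 G) : 14 ≤ n := by
  by_contra hn
  push Not at hn
  refine no_code (by omega : n ≤ 13) (colv G) ?_ hp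
  intro l
  by_contra hcon
  push Not at hcon
  have hli := Fintype.linearIndependent_iff.mp hG.1 (pt l) (by
    funext j
    have := hcon j
    simp only [dot, colv] at this
    simp only [Fin.sum_univ_three, Pi.add_apply, Pi.smul_apply, smul_eq_mul, Pi.zero_apply]
    exact this)
  exact pt_ne_zero l (funext hli)

lemma batch_pir {k n t : ℕ} (G : Matrix (Fin k) (Fin n) (ZMod 3)) (h : BatchProp t G) :
    PIRProp t G := fun j => h (fun _ => j)

lemma asp_le {k n t : ℕ} (G : Matrix (Fin k) (Fin n) (ZMod 3))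
    (hG : LinearIndependent (ZMod 3) (fun i => G i)) (h : BatchProp t G) :
    ASP (ZMod 3) k t ≤ n :=
  Nat.sInf_le ⟨_, G, ⟨hG, rfl⟩, batch_pir G h⟩

lemma asb_le {k n t : ℕ} (G : Matrix (Fin k) (Fin n) (ZMod 3))
    (hG : LinearIndependent (ZMod 3) (fun i => G i)) (h : BatchProp t G) :
    ASB (ZMod 3) k t ≤ n :=
  Nat.sInf_le ⟨_, G, ⟨hG, rfl⟩, h⟩

lemma asp_ge : 14 ≤ ASP (ZMod 3) 3 7 := by
  have hne : {n : ℕ | ∃ (C : Submodule (ZMod 3) (Fin n → ZMod 3))
      (G : Matrix (Fin 3) (Fin n) (ZMod 3)), IsGenerator G C ∧ PIRProp 7 G}.Nonempty :=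
    ⟨21, _, gmat21, ⟨gen21, rfl⟩, batch_pir _ batch21⟩
  obtain ⟨C, G, hG, hp⟩ := Nat.sInf_mem hne
  exact lower C G hG hp

lemma asb_ge : 14 ≤ ASB (ZMod 3) 3 7 := by
  have hne : {n : ℕ | ∃ (C : Submodule (ZMod 3) (Fin n → ZMod 3))
      (G : Matrix (Fin 3) (Fin n) (ZMod 3)), IsGenerator G C ∧ BatchProp 7 G}.Nonempty :=
    ⟨21, _, gmat21, ⟨gen21, rfl⟩, batch21⟩
  obtain ⟨C, G, hG, hp⟩ := Nat.sInf_mem hne
  exact lower C G hG (batch_pir _ hp)

/-- Both `ASP` and `ASB` fail to be subadditive in `t`: over the field with three elements and for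
`k = 3`, `t₁ = 5`, `t₂ = 2`. -/
theorem result :
    (ASP (ZMod 3) 3 5 ≤ 9 ∧ ASP (ZMod 3) 3 2 ≤ 4 ∧ 14 ≤ ASP (ZMod 3) 3 (5 + 2)) ∧
    (ASB (ZMod 3) 3 5 ≤ 9 ∧ ASB (ZMod 3) 3 2 ≤ 4 ∧ 14 ≤ ASB (ZMod 3) 3 (5 + 2)) ∧
    (¬ ∀ (F : Type) [Field F] [Fintype F] (k t₁ t₂ : ℕ), 1 ≤ k → 1 ≤ t₁ → 1 ≤ t₂ →
      ASP F k (t₁ + t₂) ≤ ASP F k t₁ + ASP F k t₂) ∧
    (¬ ∀ (F : Type) [Field F] [Fintype F] (k t₁ t₂ : ℕ), 1 ≤ k → 1 ≤ t₁ → 1 ≤ t₂ →
      ASB F k (t₁ + t₂) ≤ ASB F k t₁ + ASB F k t₂) := by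
  have p5 := asp_le gmat9 gen9 batch9
  have p2 := asp_le gmat4 gen4 batch4
  have b5 := asb_le gmat9 gen9 batch9
  have b2 := asb_le gmat4 gen4 batch4
  have p7 := asp_ge
  have b7 := asb_ge
  refine ⟨⟨p5, p2, p7⟩, ⟨b5, b2, b7⟩, fun h => ?_, fun h => ?_⟩
  · haveI : Fact (Nat.Prime 3) := ⟨by norm_num⟩
    have := h (ZMod 3) 3 5 2 (by norm_num) (by norm_num) (by norm_num)
    have h7 : 14 ≤ ASP (ZMod 3) 3 (5 + 2) := p7
    omega
  · haveI : Fact (Nat.Prime 3) := ⟨by norm_num⟩
    have := h (ZMod 3) 3 5 2 (by norm_num) (by norm_num) (by norm_num)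
    have h7 : 14 ≤ ASB (ZMod 3) 3 (5 + 2) := b7
    omega

end Final

end Pool.Agent.Results.MP_821f63_lc.AffinePlane
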